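import Pool.Agent.P8H82.WS.Stm

/-!
# Project WS, package LAW: mixtures of shifted distribution functions
-/

set_option autoImplicit false

namespace Pool.Agent.P8H56.WS

open Filter Topology
open Pool.Agent.P8H82.WS (S_LAW)

theorem law : S_LAW := by
  intro ι m c G I y₀ hm hsum hpos hI hcont hmono htop hzero hlt
  have hG0 : ∀ y, 0 ≤ G y := by
    intro y
    have h1 : G (min y y₀ - 1) = 0 := hzero _ (by
      have := min_le_right y y₀
      linarith)
    rw [← h1]
    exact hmono (by
      have := min_le_left y y₀
      linarith)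
  have hsI : Summable fun i => m i * I := hsum.mul_right I
  have hb : ∀ (i : ι) (y : ℝ), ‖m i * G y‖ ≤ m i * I := by
    intro i y
    rw [Real.norm_eq_abs, abs_of_nonneg (mul_nonneg (hm i) (hG0 y))]
    exact mul_le_mul_of_nonneg_left (hlt y).le (hm i)
  have hs : ∀ x : ℝ, Summable fun i => m i * G (12 * x + c i) := fun x =>
    Summable.of_norm_bounded hsI fun i => hb i _
  obtain ⟨i₀, hi₀⟩ := hpos
  have hD : 0 < ∑' i, m i * I :=
    hsI.tsum_pos (fun i => mul_nonneg (hm i) hI.le) i₀ (mul_pos hi₀ hI)
  have hbot : Tendsto G atBot (𝓝 0) := by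
    refine tendsto_const_nhds.congr' ?_
    filter_upwards [eventually_lt_atBot y₀] with y hy
    exact (hzero y hy).symm
  refine ⟨?_, ?_, ?_, ?_, ?_⟩
  · refine Continuous.div_const ?_ _
    refine continuous_tsum (fun i => ?_) hsI fun i x => hb i _
    exact continuous_const.mul (hcont.comp ((continuous_const.mul continuous_id).add
      continuous_const))
  · intro x y hxy
    refine div_le_div_of_nonneg_right ?_ hD.le
    refine (hs x).tsum_le_tsum (fun i => ?_) (hs y)
    refine mul_le_mul_of_nonneg_left (hmono ?_) (hm i)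
    linarith
  · intro x
    rw [div_lt_one hD]
    refine Summable.tsum_lt_tsum (i := i₀) (fun i => ?_) ?_ (hs x) hsI
    · exact mul_le_mul_of_nonneg_left (hlt _).le (hm i)
    · exact mul_lt_mul_of_pos_left (hlt _) hi₀
  · have h1 : Tendsto (fun x : ℝ => ∑' i, m i * G (12 * x + c i)) atBot (𝓝 (∑' _ : ι, (0 : ℝ))) := by
      refine tendsto_tsum_of_dominated_convergence hsI (fun i => ?_)
        (Eventually.of_forall fun x i => hb i _)
      have h2 : Tendsto (fun x : ℝ => 12 * x + c i) atBot atBot :=
        tendsto_atBot_add_const_right _ _ (tendsto_id.const_mul_atBot (by norm_num))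
      have h3 := (hbot.comp h2).const_mul (m i)
      rwa [mul_zero] at h3
    rw [tsum_zero] at h1
    have h4 := h1.div_const (∑' i, m i * I)
    rwa [zero_div] at h4
  · have h1 : Tendsto (fun x : ℝ => ∑' i, m i * G (12 * x + c i)) atTop (𝓝 (∑' i, m i * I)) := by
      refine tendsto_tsum_of_dominated_convergence hsI (fun i => ?_)
        (Eventually.of_forall fun x i => hb i _)
      have h2 : Tendsto (fun x : ℝ => 12 * x + c i) atTop atTop :=
        tendsto_atTop_add_const_right _ _ (tendsto_id.const_mul_atTop (by norm_num))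
      exact (htop.comp h2).const_mul (m i)
    have h4 := h1.div_const (∑' i, m i * I)
    rwa [div_self hD.ne'] at h4

end Pool.Agent.P8H56.WS
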